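import Mathlib
import Pool.Agent.Helper31K9.ROL.Abs1

set_option autoImplicit false
set_option linter.unusedSectionVars false
set_option linter.unusedVariables false

/-!
# Relative difference sets: the image in a commutative quotient, any order of the kernel
-/

namespace Pool.Agent.Helper97K9.TB

open Finset MonoidAlgebra
open Pool.Agent.Helper31K9.RNG
open Pool.Agent.Helper31K9.ROL (cs cs_sum cs_sq sum_ind_mul_bot)

section
variable {A : Type} [CommGroup A] [Fintype A] [DecidableEq A]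

/-- the coset sums -/
theorem coset_c (N : Subgroup A) (n k c : ℤ) (d : A → ℤ)
    (hA : c * (Fintype.card A : ℤ) = n ^ 2) (hN : k * (Nat.card N : ℤ) = n)
    (hsum : ∑ y, d y = n)
    (hcorr : ∀ x, corr d x = n * ind (⊥ : Subgroup A) x - k * ind N x + c) (x : A) :
    k * ∑ y, ind N y * d (y * x) = c := by
  have h2 : ∑ w, ind N w * corr d w = c * Nat.card N := by
    have e : ∀ w, ind N w * corr d w = n * (ind N w * ind (⊥ : Subgroup A) w) - k * ind N w +
        c * ind N w := by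
      intro w
      rw [hcorr]
      have e1 := ind_mul_ind (le_refl N) w
      linear_combination (-k) * e1
    rw [sum_congr rfl fun w _ => e w, sum_add_distrib, sum_sub_distrib, ← mul_sum, ← mul_sum,
      ← mul_sum, sum_ind_mul_bot, sum_ind]
    linear_combination (-1 : ℤ) * hN
  have h4 : ∑ x, (k * cs d N x - c) ^ 2 = 0 := by
    have : ∀ x, (k * cs d N x - c) ^ 2 = k ^ 2 * cs d N x ^ 2 - 2 * (k * c) * cs d N x + c ^ 2 :=
      fun x => by ring
    rw [sum_congr rfl fun x _ => this x, sum_add_distrib, sum_sub_distrib, ← mul_sum, ← mul_sum,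
      cs_sum, cs_sq, h2, hsum, sum_const, card_univ, nsmul_eq_mul]
    linear_combination (c * k * (Nat.card N : ℤ) - c * n) * hN + c * hA
  have h5 := (sum_eq_zero_iff_of_nonneg (fun x _ => sq_nonneg _)).1 h4 x (mem_univ x)
  have h6 : k * cs d N x - c = 0 := by simpa using h5
  unfold cs at h6
  linarith

theorem dvd_rep_c (p : ℕ) [Fact p.Prime] (hp : p ≠ 2) (N : Subgroup A) (n k c : ℤ)
    (hpn : (p : ℤ) ∣ n) (d : A → ℤ) (hsum : ∑ y, d y = n)
    (hcorr : ∀ x, corr d x = n * ind (⊥ : Subgroup A) x - k * ind N x + c)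
    (hcoset : ∀ x, k * ∑ y, ind N y * d (y * x) = c) (x : A) : (p : ℤ) ∣ rep d p x := by
  have hs0 : ((n : ℤ) : ZMod p) = 0 := (ZMod.intCast_zmod_eq_zero_iff_dvd n p).2 hpn
  have e1 : el p (fun x => d x⁻¹) * el p d = (-k) • el p (ind N) + c • el p (fun _ : A => 1) := by
    rw [el_mul, ← el_smul, ← el_smul, ← el_add]
    apply el_congr
    intro x
    have : ∑ y, d y⁻¹ * d (y⁻¹ * x) = corr d x := by
      unfold corr
      refine Fintype.sum_equiv (Equiv.inv A) _ _ fun y => ?_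
      simp only [Equiv.inv_apply]
      rw [mul_comm y⁻¹ x]
    rw [this, hcorr]
    push_cast
    rw [hs0]
    ring
  have e2 : k • (el p (ind N) * el p d) = c • el p (fun _ : A => 1) := by
    rw [el_mul, ← el_smul, ← el_smul]
    apply el_congr
    intro x
    rw [mul_one, ← hcoset x]
    congr 2
    refine Fintype.sum_equiv (Equiv.inv A) _ _ fun y => ?_
    simp only [Equiv.inv_apply]
    rw [ind_inv]
  have e3 : el p (fun _ : A => 1) * el p d = 0 := by
    rw [el_mul]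
    apply el_eq_zero
    intro x
    have : ∑ y, 1 * d (y⁻¹ * x) = n := by
      rw [← hsum]
      refine Fintype.sum_equiv ((Equiv.inv A).trans (Equiv.mulRight x)) _ _ fun y => ?_
      simp
    rw [this, hs0]
  have h3 : 3 ≤ p := by
    have := (Fact.out : p.Prime).two_le
    omega
  obtain ⟨r, hr⟩ := Nat.exists_eq_add_of_le h3
  have e4 : el p (rep d p) = 0 := by
    rw [el_rep, ← el_pow]
    have key : ∀ n, n = 3 + r → (el p d) ^ n = el p d * (el p d * (el p d * (el p d) ^ r)) := by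
      intro n hn
      rw [hn]
      ring
    rw [key p hr, ← mul_assoc, e1, ← mul_assoc, add_mul, smul_mul_assoc, smul_mul_assoc, e3,
      smul_zero, add_zero, neg_smul, neg_mul, e2, smul_mul_assoc, ← mul_assoc, e3, zero_mul,
      smul_zero, neg_zero]
  have e5 := coeff_el p (rep d p) x
  rw [e4] at e5
  exact (ZMod.intCast_zmod_eq_zero_iff_dvd _ p).1 e5.symm

/-- The inequality. -/
theorem ineq_c {p : ℕ} (hp : p.Prime) (hp2 : p ≠ 2) (N : Subgroup A) (n k c : ℕ) (hn : 0 < n)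
    (hk : 0 < k) (hc : 0 < c) (hpn : p ∣ n) (hA : c * Nat.card A = n ^ 2)
    (hN : k * Nat.card N = n) (d : A → ℤ) (hsum : ∑ y, d y = n)
    (hcorr : ∀ x, corr d x = n * ind (⊥ : Subgroup A) x - k * ind N x + c) :
    ((p : ℤ) - 1 - c) * n < c * Nat.card (tor p (⊥ : Subgroup A) ⊤) := by
  have : Fact p.Prime := ⟨hp⟩
  have hA' : (c : ℤ) * (Fintype.card A : ℤ) = (n : ℤ) ^ 2 := by
    rw [← Nat.card_eq_fintype_card]
    exact_mod_cast hA
  have hN' : (k : ℤ) * (Nat.card N : ℤ) = n := by exact_mod_cast hN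
  have hcos := coset_c N n k c d hA' hN' hsum hcorr
  have hdvd := dvd_rep_c p hp2 N n k c (by exact_mod_cast hpn) d hsum hcorr hcos
  have hge : ∀ x, (p : ℤ) * rep d p x ≤ rep d p x ^ 2 := by
    intro x
    obtain ⟨t, ht⟩ := hdvd x
    rw [ht]
    have h1 : t ≤ t ^ 2 := Int.le_self_sq t
    have h2 : (0 : ℤ) ≤ (p : ℤ) ^ 2 := sq_nonneg _
    nlinarith [mul_le_mul_of_nonneg_left h1 h2]
  have h1 : (p : ℤ) * (n : ℤ) ^ 2 ≤ ∑ x, rep d p x ^ 2 := by
    rw [← hsum, ← sum_rep d p, mul_sum]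
    exact sum_le_sum fun x _ => hge x
  have q1 : ∑ w, ind (⊥ : Subgroup A) w * ind (⊥ : Subgroup A) (w ^ p) = 1 := by
    rw [sum_congr rfl fun w _ => ind_mul_pow (le_refl (⊥ : Subgroup A)) p w, sum_ind,
      Subgroup.card_bot]
    rfl
  have q2 : ∑ w, ind (⊥ : Subgroup A) w * ind N (w ^ p) = 1 := by
    rw [sum_congr rfl fun w _ => ind_mul_pow (bot_le : (⊥ : Subgroup A) ≤ N) p w, sum_ind,
      Subgroup.card_bot]
    rfl
  have q3 : ∑ w, ind (⊥ : Subgroup A) w = 1 := by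
    rw [sum_ind, Subgroup.card_bot]
    rfl
  have q4 : ∑ w, ind N w * ind (⊥ : Subgroup A) (w ^ p) = Nat.card (tor p ⊥ N) :=
    sum_ind_pow p ⊥ N
  have q5 : ∑ w, ind N w * ind N (w ^ p) = Nat.card N := by
    rw [sum_congr rfl fun w _ => ind_mul_pow (le_refl N) p w, sum_ind]
  have q6 : ∑ w : A, ind N w = Nat.card N := sum_ind N
  have q7 : ∑ w : A, ind (⊥ : Subgroup A) (w ^ p) = Nat.card (tor p (⊥ : Subgroup A) ⊤) := by
    rw [← sum_ind_pow p ⊥ ⊤]
    refine sum_congr rfl fun w _ => ?_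
    rw [ind_of_mem (Subgroup.mem_top w), one_mul]
  have q8 : ∑ w : A, ind N (w ^ p) = Nat.card (tor p N ⊤) := by
    rw [← sum_ind_pow p N ⊤]
    refine sum_congr rfl fun w _ => ?_
    rw [ind_of_mem (Subgroup.mem_top w), one_mul]
  have h2 : ∑ x, rep d p x ^ 2 = (n : ℤ) ^ 2 - k * n * Nat.card (tor p ⊥ N) +
      c * n * Nat.card (tor p (⊥ : Subgroup A) ⊤) - c * k * Nat.card (tor p N ⊤) +
      c * (n : ℤ) ^ 2 := by
    rw [sum_rep_sq]
    have e : ∀ w, corr d w * corr d (w ^ p) =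
        (n : ℤ) * n * (ind (⊥ : Subgroup A) w * ind (⊥ : Subgroup A) (w ^ p)) -
        n * k * (ind (⊥ : Subgroup A) w * ind N (w ^ p)) + n * c * ind (⊥ : Subgroup A) w -
        k * n * (ind N w * ind (⊥ : Subgroup A) (w ^ p)) + k * k * (ind N w * ind N (w ^ p)) -
        k * c * ind N w + c * n * ind (⊥ : Subgroup A) (w ^ p) - c * k * ind N (w ^ p) +
        c * c := by
      intro w
      rw [hcorr, hcorr]
      ring
    rw [sum_congr rfl fun w _ => e w]
    simp only [sum_add_distrib, sum_sub_distrib, ← mul_sum]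
    rw [q1, q2, q3, q4, q5, q6, q7, q8, sum_const, card_univ, nsmul_eq_mul]
    linear_combination (c : ℤ) * hA' + ((k : ℤ) - c) * hN'
  have h3 : (0 : ℤ) < c * k * Nat.card (tor p N ⊤) := by
    have : 0 < Nat.card (tor p N ⊤) := Nat.card_pos
    positivity
  have h4 : (0 : ℤ) ≤ k * n * Nat.card (tor p ⊥ N) := by positivity
  have h5 : (n : ℤ) * (((p : ℤ) - 1 - c) * n) < n * (c * Nat.card (tor p (⊥ : Subgroup A) ⊤)) := by
    nlinarith
  exact lt_of_mul_lt_mul_left h5 (by positivity)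

/-- the number of elements of order dividing `p` -/
theorem tor_le {p : ℕ} (hp : p.Prime) {n a m : ℕ} (hn : n = p ^ a * m) (hm : ¬ p ∣ m)
    (hA : Nat.card A ∣ n ^ 2) : Nat.card (tor p (⊥ : Subgroup A) ⊤) ≤ p ^ (2 * a) := by
  have : Fact p.Prime := ⟨hp⟩
  have h1 : IsPGroup p (tor p (⊥ : Subgroup A) ⊤) := by
    rintro ⟨w, hw⟩
    refine ⟨1, Subtype.ext ?_⟩
    rw [pow_one]
    exact Subgroup.mem_bot.1 (mem_tor.1 hw).2
  obtain ⟨j, hj⟩ := IsPGroup.iff_card.1 h1
  rw [hj]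
  have h2 : p ^ j ∣ n ^ 2 := by
    rw [← hj]
    exact (Subgroup.card_subgroup_dvd_card _).trans hA
  rw [hn, mul_pow, ← pow_mul, mul_comm a 2] at h2
  have h5 : (p ^ j).Coprime (m ^ 2) :=
    Nat.Coprime.pow _ _ ((Nat.Prime.coprime_iff_not_dvd hp).2 hm)
  exact Nat.le_of_dvd (pow_pos hp.pos _) (h5.dvd_of_dvd_mul_right h2)

/-- Divisibility of all coefficients, if `- 1` is a power of the prime `l`. -/
theorem dvd_l {l : ℕ} [Fact l.Prime] {J : ℕ} (hJ : 1 ≤ J) (hpow : ∀ y : A, y ^ (l ^ J) = y⁻¹)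
    (N : Subgroup A) (n k c : ℤ) (hn : (l : ℤ) ∣ n) (hk : (l : ℤ) ∣ k) (hc : (l : ℤ) ∣ c)
    (d : A → ℤ) (hcorr : ∀ x, corr d x = n * ind (⊥ : Subgroup A) x - k * ind N x + c) (x : A) :
    (l : ℤ) ∣ d x := by
  have hl : l.Prime := Fact.out
  have hchar : CharP (MonoidAlgebra (ZMod l) A) l :=
    charP_of_injective_algebraMap (FaithfulSMul.algebraMap_injective (ZMod l)
      (MonoidAlgebra (ZMod l) A)) l
  have e1 : el l (fun x => d x⁻¹) * el l d = 0 := by
    rw [el_mul]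
    apply el_eq_zero
    intro x
    have : ∑ y, d y⁻¹ * d (y⁻¹ * x) = corr d x := by
      unfold corr
      refine Fintype.sum_equiv (Equiv.inv A) _ _ fun y => ?_
      simp only [Equiv.inv_apply]
      rw [mul_comm y⁻¹ x]
    rw [this, hcorr, ZMod.intCast_zmod_eq_zero_iff_dvd]
    exact dvd_add (dvd_sub (hn.mul_right _) (hk.mul_right _)) hc
  have e2 : ∀ f : A → ℤ, (el l f) ^ (l ^ J) = el l (fun x => f x⁻¹) := by
    intro f
    unfold el
    rw [sum_pow_char_pow]
    have h1 : ∀ y : A, (single y ((f y : ℤ) : ZMod l) : MonoidAlgebra (ZMod l) A) ^ (l ^ J) =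
        single y⁻¹ ((f y : ℤ) : ZMod l) := by
      intro y
      rw [single_pow, ZMod.pow_card_pow, hpow]
    rw [sum_congr rfl fun y _ => h1 y]
    refine Fintype.sum_equiv (Equiv.inv A) _ _ fun y => ?_
    simp
  have e3 : (el l d) ^ (l ^ J * l ^ J) = el l d := by
    rw [pow_mul, e2, e2]
    simp
  have h2 : 2 ≤ l ^ J := by
    calc 2 ≤ l := hl.two_le
      _ = l ^ 1 := (pow_one l).symm
      _ ≤ l ^ J := Nat.pow_le_pow_right hl.pos hJ
  obtain ⟨r, hr⟩ : ∃ r, l ^ J * l ^ J = (l ^ J + 1) + r :=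
    Nat.exists_eq_add_of_le (by nlinarith)
  have e4 : el l d = 0 := by
    rw [← e3, hr, pow_add, pow_succ, e2, e1, zero_mul]
  have e5 := coeff_el l d x
  rw [e4] at e5
  exact (ZMod.intCast_zmod_eq_zero_iff_dvd _ l).1 e5.symm

end

end Pool.Agent.Helper97K9.TB
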