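import Mathlib

set_option autoImplicit false

/-!
# Counting numbers which are a smooth number times a prime power of exponent at least two
-/

namespace Pool.Agent.Helper97K9.TB

open Finset

/-- negative powers as a multiplicative function -/
noncomputable def rp (σ : ℝ) : ℕ →* ℝ where
  toFun n := ((n : ℝ) ^ σ)⁻¹
  map_one' := by simp
  map_mul' a b := by
    rw [Nat.cast_mul, Real.mul_rpow (Nat.cast_nonneg a) (Nat.cast_nonneg b), mul_inv]

theorem rp_apply (σ : ℝ) (n : ℕ) : rp σ n = ((n : ℝ) ^ σ)⁻¹ := rfl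

theorem smooth_sum' (M : ℕ) (σ : ℝ) (hσ : 0 < σ) : ∃ K : ℝ, 0 ≤ K ∧ ∀ S : Finset ℕ,
    (∀ s ∈ S, s ∈ Nat.smoothNumbers M) → ∑ s ∈ S, ((s : ℝ) ^ σ)⁻¹ ≤ K := by
  have h1 := (EulerProduct.summable_and_hasSum_smoothNumbers_prod_primesBelow_geometric
    (f := rp σ) (fun {p} hp => by
      rw [rp_apply, Real.norm_of_nonneg (by positivity)]
      apply inv_lt_one_of_one_lt₀
      apply Real.one_lt_rpow _ hσ
      exact_mod_cast hp.one_lt) M).1
  refine ⟨∑' m : Nat.smoothNumbers M, ‖rp σ m‖, tsum_nonneg fun _ => norm_nonneg _, ?_⟩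
  intro S hS
  have h2 : ∑ s ∈ S, ((s : ℝ) ^ σ)⁻¹ =
      ∑ s ∈ S.attach, ‖rp σ (⟨s.1, hS s.1 s.2⟩ : Nat.smoothNumbers M)‖ := by
    rw [← sum_attach]
    refine sum_congr rfl fun s _ => ?_
    rw [rp_apply, Real.norm_of_nonneg (by positivity)]
  have h3 : ∑ s ∈ S.attach, ‖rp σ (⟨s.1, hS s.1 s.2⟩ : Nat.smoothNumbers M)‖ =
      ∑ t ∈ S.attach.image (fun s => (⟨s.1, hS s.1 s.2⟩ : Nat.smoothNumbers M)), ‖rp σ t‖ := by
    rw [sum_image]
    intro a _ b _ e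
    have e' : (a : ℕ) = b := congrArg (fun t : Nat.smoothNumbers M => (t : ℕ)) e
    exact Subtype.ext e'
  rw [h2, h3]
  exact h1.sum_le_tsum _ (fun _ _ => norm_nonneg _)

theorem pow_sum (σ : ℝ) (hσ : 1 < σ) : ∃ K : ℝ, 0 ≤ K ∧ ∀ S : Finset ℕ,
    ∑ v ∈ S, ((v : ℝ) ^ σ)⁻¹ ≤ K := by
  have h1 : Summable (fun v : ℕ => ((v : ℝ) ^ σ)⁻¹) := Real.summable_nat_rpow_inv.2 hσ
  exact ⟨∑' v : ℕ, ((v : ℝ) ^ σ)⁻¹, tsum_nonneg fun _ => by positivity,
    fun S => h1.sum_le_tsum _ (fun _ _ => by positivity)⟩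

theorem count2 (M : ℕ) : ∃ K : ℝ, 0 ≤ K ∧ ∀ (X : ℕ) (T : Set ℕ),
    (∀ n ∈ T, n ≤ X ∧ ∃ s u v w : ℕ, s ∈ Nat.smoothNumbers M ∧ 1 ≤ u ∧ 1 ≤ v ∧ 1 ≤ w ∧
      n = s * u ^ 3 * v ^ 4 * w ^ 5) → (T.ncard : ℝ) ≤ K * (X : ℝ) ^ (2 / 5 : ℝ) := by
  classical
  obtain ⟨K1, hK1, h1⟩ := smooth_sum' M (2 / 5) (by norm_num)
  obtain ⟨K2, hK2, h2⟩ := pow_sum (6 / 5) (by norm_num)
  obtain ⟨K3, hK3, h3⟩ := pow_sum (8 / 5) (by norm_num)
  obtain ⟨K4, hK4, h4⟩ := pow_sum 2 (by norm_num)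
  refine ⟨K1 * (K2 * (K3 * K4)), by positivity, fun X T hT => ?_⟩
  set S := (range (X + 1)).filter (fun s => s ∈ Nat.smoothNumbers M) with hS
  set box := S ×ˢ (Icc 1 X ×ˢ (Icc 1 X ×ˢ Icc 1 X)) with hbox
  set g : ℕ × ℕ × ℕ × ℕ → ℕ := fun t => t.1 * t.2.1 ^ 3 * t.2.2.1 ^ 4 * t.2.2.2 ^ 5 with hg
  set F := box.filter (fun t => g t ≤ X) with hF
  have hsub : T ⊆ ((F.image g : Finset ℕ) : Set ℕ) := by
    intro n hn
    obtain ⟨hnX, s, u, v, w, hs, hu, hv, hw, rfl⟩ := hT n hn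
    have hs0 : s ≠ 0 := Nat.ne_zero_of_mem_smoothNumbers hs
    have hs1 : 1 ≤ s := Nat.one_le_iff_ne_zero.2 hs0
    have hpos : 0 < s * u ^ 3 * v ^ 4 * w ^ 5 := by positivity
    have d1 : s ≤ s * u ^ 3 * v ^ 4 * w ^ 5 :=
      Nat.le_of_dvd hpos ⟨u ^ 3 * v ^ 4 * w ^ 5, by ring⟩
    have d2 : u ≤ s * u ^ 3 * v ^ 4 * w ^ 5 :=
      Nat.le_of_dvd hpos ⟨s * u ^ 2 * v ^ 4 * w ^ 5, by ring⟩
    have d3 : v ≤ s * u ^ 3 * v ^ 4 * w ^ 5 :=
      Nat.le_of_dvd hpos ⟨s * u ^ 3 * v ^ 3 * w ^ 5, by ring⟩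
    have d4 : w ≤ s * u ^ 3 * v ^ 4 * w ^ 5 :=
      Nat.le_of_dvd hpos ⟨s * u ^ 3 * v ^ 4 * w ^ 4, by ring⟩
    rw [mem_coe, mem_image]
    refine ⟨(s, u, v, w), ?_, rfl⟩
    rw [hF, mem_filter, hbox, mem_product, mem_product, mem_product]
    refine ⟨⟨mem_filter.2 ⟨mem_range.2 (by omega), hs⟩, mem_Icc.2 ⟨hu, d2.trans hnX⟩,
      mem_Icc.2 ⟨hv, d3.trans hnX⟩, mem_Icc.2 ⟨hw, d4.trans hnX⟩⟩, hnX⟩
  set wt : ℕ × ℕ × ℕ × ℕ → ℝ := fun t => (X : ℝ) ^ (2 / 5 : ℝ) *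
    (((t.1 : ℝ) ^ (2 / 5 : ℝ))⁻¹ * (((t.2.1 : ℝ) ^ (6 / 5 : ℝ))⁻¹ *
      (((t.2.2.1 : ℝ) ^ (8 / 5 : ℝ))⁻¹ * ((t.2.2.2 : ℝ) ^ (2 : ℝ))⁻¹))) with hwt
  have hw0 : ∀ t, 0 ≤ wt t := fun t => by
    rw [hwt]
    positivity
  have hw1 : ∀ t ∈ F, (1 : ℝ) ≤ wt t := by
    rintro ⟨s, u, v, w⟩ ht
    rw [hF, mem_filter, hbox, mem_product, mem_product, mem_product] at ht
    obtain ⟨⟨hs, hu, hv, hw⟩, hle⟩ := ht
    simp only at hs hu hv hw
    have hs1 : 0 < s := Nat.pos_of_ne_zero (Nat.ne_zero_of_mem_smoothNumbers (mem_filter.1 hs).2)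
    have hu1 : 0 < u := (mem_Icc.1 hu).1
    have hv1 : 0 < v := (mem_Icc.1 hv).1
    have hw1' : 0 < w := (mem_Icc.1 hw).1
    have e1 : (s : ℝ) ^ (2 / 5 : ℝ) * ((u : ℝ) ^ (6 / 5 : ℝ) * ((v : ℝ) ^ (8 / 5 : ℝ) *
        (w : ℝ) ^ (2 : ℝ))) = ((g (s, u, v, w) : ℕ) : ℝ) ^ (2 / 5 : ℝ) := by
      rw [hg]
      push_cast
      rw [Real.mul_rpow (by positivity) (by positivity), Real.mul_rpow (by positivity)
        (by positivity), Real.mul_rpow (by positivity) (by positivity),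
        ← Real.rpow_natCast (u : ℝ), ← Real.rpow_natCast (v : ℝ), ← Real.rpow_natCast (w : ℝ),
        ← Real.rpow_mul (by positivity), ← Real.rpow_mul (by positivity),
        ← Real.rpow_mul (by positivity)]
      norm_num
      ring
    have e2 : ((g (s, u, v, w) : ℕ) : ℝ) ^ (2 / 5 : ℝ) ≤ (X : ℝ) ^ (2 / 5 : ℝ) := by
      apply Real.rpow_le_rpow (Nat.cast_nonneg _) _ (by norm_num)
      exact_mod_cast hle
    rw [hwt]
    simp only
    rw [← mul_inv, ← mul_inv, ← mul_inv, e1, ← div_eq_mul_inv, one_le_div₀]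
    · exact e2
    · apply Real.rpow_pos_of_pos
      rw [hg]
      simp only
      exact_mod_cast (by positivity : 0 < s * u ^ 3 * v ^ 4 * w ^ 5)
  have hsum : ∑ t ∈ box, wt t = (X : ℝ) ^ (2 / 5 : ℝ) * ((∑ s ∈ S, ((s : ℝ) ^ (2 / 5 : ℝ))⁻¹) *
      ((∑ u ∈ Icc 1 X, ((u : ℝ) ^ (6 / 5 : ℝ))⁻¹) * ((∑ v ∈ Icc 1 X, ((v : ℝ) ^ (8 / 5 : ℝ))⁻¹) *
        ∑ w ∈ Icc 1 X, ((w : ℝ) ^ (2 : ℝ))⁻¹))) := by
    rw [hbox, hwt, ← mul_sum, sum_product, sum_mul]
    congr 1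
    refine sum_congr rfl fun s _ => ?_
    dsimp only
    rw [← mul_sum, sum_product, sum_mul]
    congr 1
    refine sum_congr rfl fun u _ => ?_
    dsimp only
    rw [← mul_sum, sum_product, sum_mul]
    congr 1
    refine sum_congr rfl fun v _ => ?_
    dsimp only
    rw [← mul_sum]
  calc (T.ncard : ℝ) ≤ (((F.image g : Finset ℕ) : Set ℕ).ncard : ℝ) := by
        exact_mod_cast Set.ncard_le_ncard hsub (finite_toSet _)
    _ = ((F.image g).card : ℝ) := by rw [Set.ncard_coe_finset]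
    _ ≤ (F.card : ℝ) := by exact_mod_cast card_image_le
    _ = ∑ t ∈ F, (1 : ℝ) := by simp
    _ ≤ ∑ t ∈ F, wt t := sum_le_sum hw1
    _ ≤ ∑ t ∈ box, wt t := sum_le_sum_of_subset_of_nonneg (filter_subset _ _) fun t _ _ => hw0 t
    _ ≤ (X : ℝ) ^ (2 / 5 : ℝ) * (K1 * (K2 * (K3 * K4))) := by
        rw [hsum]
        apply mul_le_mul_of_nonneg_left _ (by positivity)
        apply mul_le_mul (h1 S fun s hs => (mem_filter.1 hs).2) _ (by positivity) hK1
        apply mul_le_mul (h2 _) _ (by positivity) hK2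
        exact mul_le_mul (h3 _) (h4 _) (by positivity) hK3
    _ = K1 * (K2 * (K3 * K4)) * (X : ℝ) ^ (2 / 5 : ℝ) := by ring

/-- Chebyshev -/
theorem pi_le : ∃ K : ℝ, 0 < K ∧ ∀ x : ℝ, 1 ≤ x →
    (Nat.primeCounting ⌊x⌋₊ : ℝ) ≤ K * x / Real.log (2 * x) := by
  refine ⟨16, by norm_num, fun x hx => ?_⟩
  have hlog : 0 < Real.log (2 * x) := Real.log_pos (by linarith)
  rw [le_div_iff₀ hlog]
  have l4 : Real.log 4 ≤ 1.4 := by
    have : Real.log 4 = 2 * Real.log 2 := by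
      rw [show (4 : ℝ) = 2 ^ 2 by norm_num, Real.log_pow]
      norm_num
    rw [this]
    have := Real.log_two_lt_d9
    linarith
  have hsq : Real.log (2 * x) ≤ 3 * √x := by
    have h1 : Real.log (2 * x) = 2 * Real.log (√(2 * x)) := by
      rw [Real.log_sqrt (by linarith)]
      ring
    have h2 : Real.log (√(2 * x)) ≤ √(2 * x) - 1 := Real.log_le_sub_one_of_pos (by positivity)
    have h3 : √(2 * x) = √2 * √x := Real.sqrt_mul (by norm_num) x
    have h4 : √2 ≤ 1.5 := by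
      rw [Real.sqrt_le_left (by norm_num)]
      norm_num
    rw [h1]
    nlinarith [Real.sqrt_nonneg x]
  have hxx : √x * √x = x := Real.mul_self_sqrt (by linarith)
  rcases lt_or_ge x 4 with h | h
  · have h1 : (Nat.primeCounting ⌊x⌋₊ : ℝ) ≤ x := by
      have h2 : Nat.primeCounting ⌊x⌋₊ ≤ ⌊x⌋₊ := by
        have h4 : Nat.primeCounting ⌊x⌋₊ ≤ Nat.primeCounting 3 :=
          Nat.monotone_primeCounting (by
            have := Nat.floor_lt (n := 4) (by linarith : (0 : ℝ) ≤ x)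
            have h5 : ⌊x⌋₊ < 4 := by
              rw [this]
              exact_mod_cast h
            omega)
        have h5 : 1 ≤ ⌊x⌋₊ := Nat.le_floor (by exact_mod_cast hx)
        have h6 : Nat.primeCounting 3 = 2 := by decide
        have h7 : Nat.primeCounting 1 = 0 := by decide
        rcases Nat.lt_or_ge ⌊x⌋₊ 2 with h8 | h8
        · have h9 : ⌊x⌋₊ = 1 := by omega
          rw [h9, h7]
          norm_num
        · omega
      calc (Nat.primeCounting ⌊x⌋₊ : ℝ) ≤ (⌊x⌋₊ : ℝ) := by exact_mod_cast h2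
        _ ≤ x := Nat.floor_le (by linarith)
    have h2 : √x ≤ 2 := by
      rw [Real.sqrt_le_left (by norm_num)]
      linarith
    have h3 : Real.log (2 * x) ≤ 6 := by linarith
    calc (Nat.primeCounting ⌊x⌋₊ : ℝ) * Real.log (2 * x) ≤ x * 6 :=
          mul_le_mul h1 h3 hlog.le (by linarith)
      _ ≤ 16 * x := by linarith
  · have h1 := Chebyshev.pi_le_log4_mul_div (x := x) (by linarith)
    have hl2 : Real.log (2 * x) ≤ 2 * Real.log x := by
      rw [Real.log_mul (by norm_num) (by linarith)]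
      have := Real.log_le_log (by norm_num : (0 : ℝ) < 2) (by linarith : (2 : ℝ) ≤ x)
      linarith
    have hl3 : Real.log (√x) = Real.log x / 2 := Real.log_sqrt (by linarith)
    have hlx : 0 < Real.log x := Real.log_pos (by linarith)
    rw [hl3] at h1
    have h2 : Real.log 4 * x / (Real.log x / 2) * Real.log (2 * x) ≤ 4 * Real.log 4 * x := by
      rw [div_mul_eq_mul_div, div_le_iff₀ (by positivity)]
      have h4 : 0 ≤ Real.log 4 * x := mul_nonneg (Real.log_nonneg (by norm_num)) (by linarith)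
      nlinarith [mul_le_mul_of_nonneg_left hl2 h4]
    have h3 : √x * Real.log (2 * x) ≤ 3 * x := by
      nlinarith [mul_le_mul_of_nonneg_left hsq (Real.sqrt_nonneg x)]
    calc (Nat.primeCounting ⌊x⌋₊ : ℝ) * Real.log (2 * x)
        ≤ (Real.log 4 * x / (Real.log x / 2) + √x) * Real.log (2 * x) :=
          mul_le_mul_of_nonneg_right h1 hlog.le
      _ ≤ 4 * Real.log 4 * x + 3 * x := by
          rw [add_mul]
          exact add_le_add h2 h3
      _ ≤ 16 * x := by nlinarith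

theorem count1 (M : ℕ) : ∃ K : ℝ, 0 ≤ K ∧ ∀ X : ℕ, 2 ≤ X → ∀ T : Set ℕ,
    (∀ n ∈ T, n ≤ X ∧ ∃ s p : ℕ, s ∈ Nat.smoothNumbers M ∧ p.Prime ∧ n = s * p ^ 2) →
    (T.ncard : ℝ) ≤ K * (√(X : ℝ) / Real.log X) := by
  classical
  obtain ⟨K1, hK1, h1⟩ := smooth_sum' M (1 / 4) (by norm_num)
  obtain ⟨K0, hK0, h0⟩ := pi_le
  refine ⟨10 * K0 * K1, by positivity, fun X hX T hT => ?_⟩
  have hX0 : (0 : ℝ) < X := by
    have : 0 < X := by omega
    exact_mod_cast this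
  have hlX : 0 < Real.log X := Real.log_pos (by
    have : 1 < X := by omega
    exact_mod_cast this)
  set S := (range (X + 1)).filter (fun s => s ∈ Nat.smoothNumbers M) with hS
  set U : Finset ℕ := S.biUnion fun s =>
    ((range (Nat.sqrt (X / s) + 1)).filter Nat.Prime).image fun p => s * p ^ 2 with hU
  have hsub : T ⊆ (U : Set ℕ) := by
    intro n hn
    obtain ⟨hnX, s, p, hs, hp, rfl⟩ := hT n hn
    have hs0 : s ≠ 0 := Nat.ne_zero_of_mem_smoothNumbers hs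
    have hsX : s ≤ X := by
      calc s = s * 1 := (mul_one s).symm
        _ ≤ s * p ^ 2 := Nat.mul_le_mul_left _ (Nat.one_le_pow _ _ hp.pos)
        _ ≤ X := hnX
    rw [mem_coe, hU, mem_biUnion]
    refine ⟨s, mem_filter.2 ⟨mem_range.2 (by omega), hs⟩, ?_⟩
    rw [mem_image]
    refine ⟨p, mem_filter.2 ⟨mem_range.2 (Nat.lt_succ_of_le ?_), hp⟩, rfl⟩
    rw [Nat.le_sqrt, Nat.le_div_iff_mul_le (Nat.pos_of_ne_zero hs0)]
    calc p * p * s = s * p ^ 2 := by ring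
      _ ≤ X := hnX
  have hterm : ∀ s ∈ S, (Nat.primeCounting (Nat.sqrt (X / s)) : ℝ) ≤
      10 * K0 * (√(X : ℝ) / Real.log X) * ((s : ℝ) ^ (1 / 4 : ℝ))⁻¹ := by
    intro s hs
    have hs0 : s ≠ 0 := Nat.ne_zero_of_mem_smoothNumbers (mem_filter.1 hs).2
    have hsX : s ≤ X := Nat.lt_succ_iff.1 (mem_range.1 (mem_filter.1 hs).1)
    have hs1 : (1 : ℝ) ≤ s := by exact_mod_cast Nat.one_le_iff_ne_zero.2 hs0
    have hspos : (0 : ℝ) < s := by linarith
    have hsX' : (s : ℝ) ≤ X := by exact_mod_cast hsX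
    set y : ℝ := √((X : ℝ) / s) with hy
    have hy1 : 1 ≤ y := by
      rw [hy, Real.le_sqrt' one_pos, one_pow, one_le_div₀ hspos]
      exact hsX'
    have hfl : Nat.sqrt (X / s) ≤ ⌊y⌋₊ := by
      apply Nat.le_floor
      refine Real.nat_sqrt_le_real_sqrt.trans (Real.sqrt_le_sqrt ?_)
      exact Nat.cast_div_le
    have hyy : y ^ 2 = X / s := Real.sq_sqrt (by positivity)
    have hsq : (1 : ℝ) ≤ (s : ℝ) ^ (1 / 4 : ℝ) := Real.one_le_rpow hs1 (by norm_num)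
    have hl2 : (1 / 2 : ℝ) ≤ Real.log (2 * y) := by
      have h2 : Real.log 2 ≤ Real.log (2 * y) := Real.log_le_log (by norm_num) (by linarith)
      have := Real.log_two_gt_d9
      linarith
    have hlog : Real.log X ≤ 10 * (s : ℝ) ^ (1 / 4 : ℝ) * Real.log (2 * y) := by
      have e1 : (X : ℝ) = s * y ^ 2 := by
        rw [hyy]
        field_simp
      have e2 : Real.log X = Real.log s + 2 * Real.log y := by
        rw [e1, Real.log_mul hspos.ne' (by positivity), Real.log_pow]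
        push_cast
        ring
      have e3 : Real.log s ≤ 4 * (s : ℝ) ^ (1 / 4 : ℝ) := by
        have := Real.log_le_rpow_div hspos.le (by norm_num : (0 : ℝ) < 1 / 4)
        linarith
      have e4 : Real.log y ≤ Real.log (2 * y) := Real.log_le_log (by linarith) (by linarith)
      rw [e2]
      nlinarith
    have hlp : 0 < Real.log (2 * y) := by linarith
    calc (Nat.primeCounting (Nat.sqrt (X / s)) : ℝ) ≤ (Nat.primeCounting ⌊y⌋₊ : ℝ) := by
          exact_mod_cast Nat.monotone_primeCounting hfl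
      _ ≤ K0 * y / Real.log (2 * y) := h0 y hy1
      _ ≤ K0 * y * (10 * (s : ℝ) ^ (1 / 4 : ℝ)) / Real.log X := by
          rw [div_le_div_iff₀ hlp hlX]
          have : 0 ≤ K0 * y := by positivity
          nlinarith [mul_le_mul_of_nonneg_left hlog this]
      _ = 10 * K0 * (√(X : ℝ) / Real.log X) * ((s : ℝ) ^ (1 / 4 : ℝ))⁻¹ := by
          have e5 : y = √(X : ℝ) * (((s : ℝ) ^ (1 / 4 : ℝ))⁻¹ * ((s : ℝ) ^ (1 / 4 : ℝ))⁻¹) := by
            rw [hy, Real.sqrt_div hX0.le, div_eq_mul_inv, ← mul_inv,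
              ← Real.rpow_add hspos, Real.sqrt_eq_rpow (s : ℝ)]
            norm_num
          rw [e5]
          field_simp
  have hcount : ∀ m : ℕ, ((range (m + 1)).filter Nat.Prime).card = Nat.primeCounting m := by
    intro m
    unfold Nat.primeCounting Nat.primeCounting'
    rw [Nat.count_eq_card_filter_range]
  calc (T.ncard : ℝ) ≤ ((U : Set ℕ).ncard : ℝ) := by
        exact_mod_cast Set.ncard_le_ncard hsub (finite_toSet U)
    _ = U.card := by rw [Set.ncard_coe_finset]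
    _ ≤ ∑ s ∈ S, (Nat.primeCounting (Nat.sqrt (X / s)) : ℝ) := by
        have e1 : U.card ≤ ∑ s ∈ S, Nat.primeCounting (Nat.sqrt (X / s)) := by
          refine card_biUnion_le.trans (sum_le_sum fun s _ => ?_)
          rw [← hcount]
          exact card_image_le
        exact_mod_cast e1
    _ ≤ ∑ s ∈ S, 10 * K0 * (√(X : ℝ) / Real.log X) * ((s : ℝ) ^ (1 / 4 : ℝ))⁻¹ :=
        sum_le_sum hterm
    _ = 10 * K0 * (√(X : ℝ) / Real.log X) * ∑ s ∈ S, ((s : ℝ) ^ (1 / 4 : ℝ))⁻¹ := by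
        rw [mul_sum]
    _ ≤ 10 * K0 * (√(X : ℝ) / Real.log X) * K1 := by
        apply mul_le_mul_of_nonneg_left (h1 S fun s hs => (mem_filter.1 hs).2)
        positivity
    _ = 10 * K0 * K1 * (√(X : ℝ) / Real.log X) := by ring

theorem pow_split' {p a : ℕ} (hp : 1 ≤ p) (ha : 3 ≤ a) : ∃ u v w : ℕ, 1 ≤ u ∧ 1 ≤ v ∧ 1 ≤ w ∧
    p ^ a = u ^ 3 * v ^ 4 * w ^ 5 := by
  have h0 : a % 3 = 0 ∨ a % 3 = 1 ∨ a % 3 = 2 := by omega
  rcases h0 with h | h | h
  · obtain ⟨b, hb⟩ : ∃ b, a = 3 * b := ⟨a / 3, by omega⟩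
    refine ⟨p ^ b, 1, 1, Nat.one_le_pow _ _ hp, le_rfl, le_rfl, ?_⟩
    rw [hb, one_pow, mul_one, one_pow, mul_one, ← pow_mul, mul_comm b 3]
  · obtain ⟨b, hb⟩ : ∃ b, a = 3 * b + 4 := ⟨a / 3 - 1, by omega⟩
    refine ⟨p ^ b, p, 1, Nat.one_le_pow _ _ hp, hp, le_rfl, ?_⟩
    rw [hb, one_pow, mul_one, pow_add, ← pow_mul, mul_comm b 3]
  · obtain ⟨b, hb⟩ : ∃ b, a = 3 * b + 5 := ⟨a / 3 - 1, by omega⟩
    refine ⟨p ^ b, 1, p, Nat.one_le_pow _ _ hp, le_rfl, hp, ?_⟩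
    rw [hb, one_pow, mul_one, pow_add, ← pow_mul, mul_comm b 3]

/-- The count. -/
theorem count_all (M : ℕ) : ∃ K : ℝ, ∀ X : ℕ, 2 ≤ X → ∀ T : Set ℕ,
    (∀ n ∈ T, n ≤ X ∧ (n ∈ Nat.smoothNumbers M ∨ ∃ s p a : ℕ, s ∈ Nat.smoothNumbers M ∧
      p.Prime ∧ 2 ≤ a ∧ n = s * p ^ a)) → (T.ncard : ℝ) ≤ K * (√(X : ℝ) / Real.log X) := by
  obtain ⟨K1, hK1, h1⟩ := count1 M
  obtain ⟨K2, hK2, h2⟩ := count2 M
  refine ⟨K1 + K2 * 10, fun X hX T hT => ?_⟩
  have hX0 : (0 : ℝ) < X := by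
    have : 0 < X := by omega
    exact_mod_cast this
  have hlX : 0 < Real.log X := Real.log_pos (by
    have : 1 < X := by omega
    exact_mod_cast this)
  set T1 : Set ℕ := {n ∈ T | ∃ s p : ℕ, s ∈ Nat.smoothNumbers M ∧ p.Prime ∧ n = s * p ^ 2} with hT1
  set T2 : Set ℕ := {n ∈ T | ∃ s u v w : ℕ, s ∈ Nat.smoothNumbers M ∧ 1 ≤ u ∧ 1 ≤ v ∧ 1 ≤ w ∧
      n = s * u ^ 3 * v ^ 4 * w ^ 5} with hT2
  have hsub : T ⊆ T1 ∪ T2 := by
    intro n hn
    obtain ⟨hnX, hs | ⟨s, p, a, hs, hp, ha, rfl⟩⟩ := hT n hn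
    · right
      exact ⟨hn, n, 1, 1, 1, hs, le_rfl, le_rfl, le_rfl, by ring⟩
    · rcases Nat.lt_or_ge a 3 with h | h
      · left
        have h3 : a = 2 := by omega
        exact ⟨hn, s, p, hs, hp, by rw [h3]⟩
      · right
        obtain ⟨u, v, w, hu, hv, hw, e⟩ := pow_split' hp.one_lt.le h
        exact ⟨hn, s, u, v, w, hs, hu, hv, hw, by rw [e]; ring⟩
  have hfin : (T1 ∪ T2).Finite := by
    apply (Set.finite_Iic X).subset
    rintro n (hn | hn)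
    · exact (hT n hn.1).1
    · exact (hT n hn.1).1
  have e1 := h1 X hX T1 fun n hn => ⟨(hT n hn.1).1, hn.2⟩
  have e2 := h2 X T2 fun n hn => ⟨(hT n hn.1).1, hn.2⟩
  have e3 : (X : ℝ) ^ (2 / 5 : ℝ) ≤ 10 * (√(X : ℝ) / Real.log X) := by
    have l1 : Real.log X ≤ 10 * (X : ℝ) ^ (1 / 10 : ℝ) := by
      have := Real.log_le_rpow_div hX0.le (by norm_num : (0 : ℝ) < 1 / 10)
      linarith
    rw [← mul_div_assoc, le_div_iff₀ hlX]
    calc (X : ℝ) ^ (2 / 5 : ℝ) * Real.log X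
        ≤ (X : ℝ) ^ (2 / 5 : ℝ) * (10 * (X : ℝ) ^ (1 / 10 : ℝ)) :=
          mul_le_mul_of_nonneg_left l1 (by positivity)
      _ = 10 * ((X : ℝ) ^ (2 / 5 : ℝ) * (X : ℝ) ^ (1 / 10 : ℝ)) := by ring
      _ = 10 * √(X : ℝ) := by
          rw [← Real.rpow_add hX0, Real.sqrt_eq_rpow]
          norm_num
  have e4 : (T.ncard : ℝ) ≤ (T1.ncard : ℝ) + T2.ncard := by
    have a1 := Set.ncard_le_ncard hsub hfin
    have a2 := Set.ncard_union_le T1 T2
    exact_mod_cast a1.trans a2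
  calc (T.ncard : ℝ) ≤ (T1.ncard : ℝ) + T2.ncard := e4
    _ ≤ K1 * (√(X : ℝ) / Real.log X) + K2 * (10 * (√(X : ℝ) / Real.log X)) :=
        add_le_add e1 (e2.trans (mul_le_mul_of_nonneg_left e3 hK2))
    _ = (K1 + K2 * 10) * (√(X : ℝ) / Real.log X) := by ring

/-- The number of squares of primes. -/
theorem count_low : ∃ κ : ℝ, 0 < κ ∧ ∀ X : ℕ, 4 ≤ X → ∀ T : Set ℕ, T.Finite →
    (∀ p : ℕ, p.Prime → p ^ 2 ≤ X → p ^ 2 ∈ T) → κ * (√(X : ℝ) / Real.log X) ≤ (T.ncard : ℝ) := by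
  classical
  refine ⟨1 / 12, by norm_num, fun X hX T hfin hT => ?_⟩
  set n := Nat.sqrt X with hn
  have hn2 : 2 ≤ n := by
    rw [hn, Nat.le_sqrt]
    omega
  have hn2' : (2 : ℝ) ≤ n := by exact_mod_cast hn2
  have hnX : n ^ 2 ≤ X := Nat.sqrt_le' X
  have hXn : X < (n + 1) ^ 2 := Nat.lt_succ_sqrt' X
  have hsub : (((range (n + 1)).filter Nat.Prime).image (fun p => p ^ 2) : Set ℕ) ⊆ T := by
    intro m hm
    rw [mem_coe, mem_image] at hm
    obtain ⟨p, hp, rfl⟩ := hm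
    rw [mem_filter, mem_range] at hp
    apply hT p hp.2
    calc p ^ 2 ≤ n ^ 2 := Nat.pow_le_pow_left (by omega) 2
      _ ≤ X := hnX
  have h1 : Nat.primeCounting n ≤ T.ncard := by
    have h2 := Set.ncard_le_ncard hsub hfin
    rw [Set.ncard_coe_finset, card_image_of_injective _ (fun a b e => by
      exact Nat.pow_left_injective (by norm_num : 2 ≠ 0) e)] at h2
    have h3 : ((range (n + 1)).filter Nat.Prime).card = Nat.primeCounting n := by
      unfold Nat.primeCounting Nat.primeCounting'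
      rw [Nat.count_eq_card_filter_range]
    rwa [h3] at h2
  have h2 := Chebyshev.pi_ge n
  have hlog3 : Real.log 3 ≤ 1.1025 := by
    have e1 : 2 * Real.log 3 = 3 * Real.log 2 + Real.log (9 / 8) := by
      have a1 : 2 * Real.log 3 = Real.log 9 := by
        rw [show (9 : ℝ) = 3 ^ 2 by norm_num, Real.log_pow]
        norm_num
      have a2 : 3 * Real.log 2 = Real.log 8 := by
        rw [show (8 : ℝ) = 2 ^ 3 by norm_num, Real.log_pow]
        norm_num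
      rw [a1, a2, ← Real.log_mul (by norm_num) (by norm_num)]
      norm_num
    have e2 : Real.log (9 / 8) ≤ 9 / 8 - 1 := Real.log_le_sub_one_of_pos (by norm_num)
    have e3 := Real.log_two_lt_d9
    linarith
  have hlogn : Real.log (n + 1) ≤ Real.log 3 + ((n : ℝ) - 2) / 3 := by
    have e1 : Real.log ((n + 1) / 3) ≤ (n + 1) / 3 - 1 :=
      Real.log_le_sub_one_of_pos (by positivity)
    rw [Real.log_div (by positivity) (by norm_num)] at e1
    linarith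
  have hnum : (1 / 12 : ℝ) * (n + 1) ≤ n * Real.log 2 - Real.log (n + 1) := by
    have e3 := Real.log_two_gt_d9
    nlinarith
  have hlogn0 : 0 < Real.log n := Real.log_pos (by linarith)
  have hX0 : (0 : ℝ) < X := by
    have : 0 < X := by omega
    exact_mod_cast this
  have hlX : 0 < Real.log X := Real.log_pos (by
    have : 1 < X := by omega
    exact_mod_cast this)
  have hlognX : Real.log n ≤ Real.log X := by
    apply Real.log_le_log (by linarith)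
    have : n ≤ X := Nat.sqrt_le_self X
    exact_mod_cast this
  have hsq : √(X : ℝ) ≤ n + 1 := by
    rw [Real.sqrt_le_left (by positivity)]
    exact_mod_cast hXn.le
  calc 1 / 12 * (√(X : ℝ) / Real.log X) = (1 / 12 * √(X : ℝ)) / Real.log X := by ring
    _ ≤ (n * Real.log 2 - Real.log (n + 1)) / Real.log n := by
        apply div_le_div₀ _ _ hlogn0 hlognX
        · have : (0 : ℝ) ≤ 1 / 12 * (n + 1) := by positivity
          linarith
        · linarith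
    _ ≤ (Nat.primeCounting n : ℝ) := h2
    _ ≤ (T.ncard : ℝ) := by exact_mod_cast h1

end Pool.Agent.Helper97K9.TB
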