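import Mathlib
import Pool.Agent.Helper97K9.TB.Abs

set_option autoImplicit false
set_option linter.unusedSectionVars false
set_option linter.unusedVariables false

/-!
# The odd order of the prime divisors of the cofactor
-/

namespace Pool.Agent.Helper97K9.TB

open Finset MonoidAlgebra
open Pool.Agent.Helper31K9.RNG

theorem ex_J {p l : ℕ} (a : ℕ) (hp : p.Prime) (hp2 : p ≠ 2) (hl : l.Prime) (hlp : l ≠ p)
    (hev : ¬ Odd (orderOf (l : ZMod p))) : ∃ J, 1 ≤ J ∧ p ^ a ∣ l ^ J + 1 := by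
  have : Fact p.Prime := ⟨hp⟩
  have hl0 : (l : ZMod p) ≠ 0 := by
    intro h
    rw [ZMod.natCast_eq_zero_iff] at h
    exact hlp ((Nat.prime_dvd_prime_iff_eq hp hl).1 h).symm
  have hfin : 0 < orderOf (l : ZMod p) := by
    rw [orderOf_pos_iff, isOfFinOrder_iff_pow_eq_one]
    exact ⟨p - 1, Nat.sub_pos_of_lt hp.one_lt, ZMod.pow_card_sub_one_eq_one hl0⟩
  rw [Nat.not_odd_iff_even] at hev
  obtain ⟨t, ht⟩ := hev
  have ht1 : 1 ≤ t := by omega
  have h1 : (l : ZMod p) ^ t * (l : ZMod p) ^ t = 1 := by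
    rw [← pow_add, ← ht, pow_orderOf_eq_one]
  have h2 : (l : ZMod p) ^ t ≠ 1 := by
    intro h
    have := orderOf_dvd_of_pow_eq_one h
    have := Nat.le_of_dvd ht1 this
    omega
  have h3 : (l : ZMod p) ^ t = -1 := (mul_self_eq_one_iff.1 h1).resolve_left h2
  have h4 : (p : ℤ) ∣ (l : ℤ) ^ t - (-1) := by
    rw [← ZMod.intCast_zmod_eq_zero_iff_dvd]
    push_cast
    rw [h3]
    ring
  have h5 := dvd_sub_pow_of_dvd_sub h4 a
  have hodd : Odd (p ^ a) := (hp.odd_of_ne_two hp2).pow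
  rw [hodd.neg_one_pow, sub_neg_eq_add, ← pow_mul] at h5
  refine ⟨t * p ^ a, Nat.one_le_iff_ne_zero.2 (Nat.mul_ne_zero (by omega) (pow_ne_zero _ hp.ne_zero)), ?_⟩
  have h6 : p ^ (a + 1) ∣ l ^ (t * p ^ a) + 1 := by exact_mod_cast h5
  exact (pow_dvd_pow p (Nat.le_succ a)).trans h6

section
variable {A : Type} [CommGroup A] [Fintype A] [DecidableEq A]

theorem odd_c {p l a m : ℕ} (hp : p.Prime) (hp2 : p ≠ 2) (hl : l.Prime) (hlm : l ∣ m)
    (hpm : ¬ p ∣ m) (hm : 0 < m) (hma : m ≤ p ^ a) (hA : Nat.card A = p ^ (2 * a))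
    (N : Subgroup A) (d : A → ℤ) (hpos : ∀ x, 0 ≤ d x)
    (hsum : ∑ y, d y = (p : ℤ) ^ a * m)
    (hcorr : ∀ x, corr d x = (p : ℤ) ^ a * m * ind (⊥ : Subgroup A) x - m * ind N x + m ^ 2) :
    Odd (orderOf (l : ZMod p)) := by
  have : Fact l.Prime := ⟨hl⟩
  by_contra hcon
  have hlp : l ≠ p := by
    rintro rfl
    exact hpm hlm
  obtain ⟨J, hJ, hdv⟩ := ex_J (2 * a) hp hp2 hl hlp hcon
  have hpow : ∀ y : A, y ^ (l ^ J) = y⁻¹ := by
    intro y
    have h1 : y ^ (l ^ J + 1) = 1 := by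
      obtain ⟨u, hu⟩ := hdv
      rw [hu, ← hA, pow_mul, pow_card_eq_one', one_pow]
    rw [pow_succ] at h1
    exact eq_inv_of_mul_eq_one_left h1
  have hlm' : (l : ℤ) ∣ (m : ℤ) := by exact_mod_cast hlm
  have hdvd := dvd_l hJ hpow N ((p : ℤ) ^ a * m) m ((m : ℤ) ^ 2) (hlm'.mul_left _) hlm'
    (hlm'.trans (Dvd.intro_left _ (by ring : (m : ℤ) * m = m ^ 2))) d hcorr
  have h1 : ∑ y, d y ^ 2 = (p : ℤ) ^ a * m - m + m ^ 2 := by
    have h2 := hcorr 1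
    rw [ind_of_mem (Subgroup.one_mem _), ind_of_mem (Subgroup.one_mem _), mul_one, mul_one] at h2
    rw [← h2]
    unfold corr
    refine sum_congr rfl fun y _ => ?_
    rw [one_mul, sq]
  have h3 : ∀ y, (l : ℤ) * d y ≤ d y ^ 2 := by
    intro y
    obtain ⟨t, ht⟩ := hdvd y
    have h4 : t ≤ t ^ 2 := Int.le_self_sq t
    have h5 : (0 : ℤ) ≤ (l : ℤ) ^ 2 := sq_nonneg _
    rw [ht]
    nlinarith [mul_le_mul_of_nonneg_left h4 h5]
  have h4 : (l : ℤ) * ((p : ℤ) ^ a * m) ≤ (p : ℤ) ^ a * m - m + m ^ 2 := by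
    rw [← h1, ← hsum, mul_sum]
    exact sum_le_sum fun y _ => h3 y
  have hl2 : (2 : ℤ) ≤ l := by exact_mod_cast hl.two_le
  have hm' : (0 : ℤ) < m := by exact_mod_cast hm
  have hma' : (m : ℤ) ≤ (p : ℤ) ^ a := by exact_mod_cast hma
  nlinarith [mul_le_mul_of_nonneg_right hma' hm'.le,
    mul_le_mul_of_nonneg_right hl2 (by positivity : (0 : ℤ) ≤ (p : ℤ) ^ a * m)]

end

end Pool.Agent.Helper97K9.TB
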