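import Mathlib
import Pool.Agent.Helper97K9.TB.Ord
import Pool.Agent.Helper31K9.RNG.PlaneD

set_option autoImplicit false
set_option linter.unusedSectionVars false
set_option linter.unusedVariables false

/-!
# Affine planes with a point-regular group and a line with trivial stabilizer
-/

namespace Pool.Agent.Helper97K9.TB

open Finset
open scoped Pointwise
open Pool.Agent.R116.AF (Aff par par_refl NN mem_NN stab_le count_NN Dset orb mem_orb card_pairs)
open Pool.Agent.TH66.SG (num cor cor_num sum_num fib)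
open Pool.Agent.Helper31K9.RNG

section
variable {V : Type} [Fintype V] [DecidableEq V] {k : ℕ} {B : Finset (Finset V)}
variable {G : Type} [Group G] [Fintype G] [DecidableEq G] [MulAction G V]

/-- The data of the projection to a commutative quotient. -/
theorem data (h : Aff k B) (hinv : ∀ (g : G), ∀ b ∈ B, g • b ∈ B) (hr : Reg G V)
    {L : Finset V} (hL : L ∈ B) (x0 : V) (hfree : MulAction.stabilizer G L = ⊥)
    {A : Type} [CommGroup A] [Fintype A] [DecidableEq A] (φ : G →* A)
    (hφ : Function.Surjective φ) :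
    ∃ (kk : ℕ) (N : Subgroup A) (d : A → ℤ), 0 < kk ∧ kk ∣ Nat.card φ.ker ∧
      kk * Nat.card N = k ∧ Nat.card φ.ker * Nat.card A = k ^ 2 ∧ (∀ x, 0 ≤ d x) ∧
      ∑ y, d y = k ∧
      ∀ x, corr d x = k * ind (⊥ : Subgroup A) x - kk * ind N x + Nat.card φ.ker := by
  have hk2 := h.two
  have hG := card_reg h hr x0
  have htop : (⊤ : Subgroup G).map φ = ⊤ := by
    rw [← MonoidHom.range_eq_map]
    exact MonoidHom.range_eq_top.2 hφ
  have hkerA : Nat.card φ.ker * Nat.card A = k ^ 2 := by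
    have h1 := card_inf_map φ ⊤
    rw [htop, Subgroup.card_top, Subgroup.card_top, hG, top_inf_eq] at h1
    exact h1
  set NL := NN h hinv L hL with hNL
  have s2 := card_inf_map φ NL
  have s3 : Nat.card NL = k * Nat.card (MulAction.stabilizer G L) := card_NN h hinv hr hL x0
  rw [hfree, Subgroup.card_bot, mul_one] at s3
  refine ⟨Nat.card (NL ⊓ φ.ker : Subgroup G), NL.map φ, num φ (Dset G x0 L), Nat.card_pos,
    Subgroup.card_dvd_of_le inf_le_right, by rw [s2, s3], hkerA, ?_, ?_, ?_⟩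
  · intro x
    unfold num
    exact sum_nonneg fun y _ => by split_ifs <;> norm_num
  · rw [sum_num]
    have : (Dset G x0 L).card = k := card_move h hr hL x0
    rw [this]
  · intro x
    have h1 : corr (num φ (Dset G x0 L)) x = cor (num φ (Dset G x0 L)) x := by
      unfold corr cor
      exact sum_congr rfl fun y _ => mul_comm _ _
    rw [h1, cor_num]
    have h2 : ∀ g : G, (if φ g = x then
        ((((Dset G x0 L ×ˢ Dset G x0 L).filter (fun p : G × G => p.1 * p.2⁻¹ = g)).card : ℕ) : ℤ)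
          else 0) = k * (if φ g = x then jnd (⊥ : Subgroup G) g else 0) -
          (if φ g = x then jnd NL g else 0) +
          (if φ g = x then jnd (⊤ : Subgroup G) g else 0) := by
      intro g
      rw [pairs_eq h hinv hr hL x0 g, hfree]
      by_cases h3 : φ g = x
      · simp only [if_pos h3]
        rfl
      · simp only [if_neg h3]
        ring
    rw [sum_congr rfl fun g _ => h2 g, sum_add_distrib, sum_sub_distrib, ← mul_sum, cnt_sub,
      cnt_sub, cnt_sub, htop, ind_of_mem (Subgroup.mem_top x), bot_inf_eq, top_inf_eq,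
      Subgroup.map_bot, Subgroup.card_bot]
    push_cast
    ring

end

/-- The projection to the Sylow `p`-subgroup of the commutator quotient. -/
theorem ex_quot (G : Type) [Group G] [Finite G] {p a m : ℕ} (hp : p.Prime)
    (hG : Nat.card G = (p ^ a * m) ^ 2) (hpm : ¬ p ∣ m) (hm : 0 < m)
    (hc : ¬ p ∣ Nat.card (commutator G)) :
    ∃ (P : Subgroup (Abelianization G)) (φ : G →* P), Function.Surjective φ ∧
      Nat.card P = p ^ (2 * a) := by
  have : Fact p.Prime := ⟨hp⟩
  have hcA : Nat.card (commutator G) * Nat.card (Abelianization G) = p ^ (2 * a) * m ^ 2 := by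
    have h1 := Subgroup.card_mul_index (commutator G)
    rw [hG, mul_pow, ← pow_mul, mul_comm a 2] at h1
    exact h1
  have h1 : p ^ (2 * a) ∣ Nat.card (Abelianization G) := by
    have h2 : p ^ (2 * a) ∣ Nat.card (commutator G) * Nat.card (Abelianization G) :=
      hcA ▸ Dvd.intro _ rfl
    exact (Nat.Coprime.pow_left _ ((Nat.Prime.coprime_iff_not_dvd hp).2 hc)).dvd_of_dvd_mul_left h2
  obtain ⟨e, he⟩ := h1
  have hpe : ¬ p ∣ e := by
    intro h2
    have h3 : Nat.card (commutator G) * e = m ^ 2 := by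
      rw [he] at hcA
      have h4 : p ^ (2 * a) * (Nat.card (commutator G) * e) = p ^ (2 * a) * m ^ 2 := by
        rw [← hcA]
        ring
      exact Nat.eq_of_mul_eq_mul_left (pow_pos hp.pos _) h4
    exact hpm (hp.dvd_of_dvd_pow (h3 ▸ h2.mul_left _))
  set ψ : Abelianization G →* Abelianization G := powMonoidHom e with hψ
  have hKR : Nat.card ψ.ker * Nat.card ψ.range = Nat.card (Abelianization G) := by
    have h2 := Subgroup.card_mul_index ψ.ker
    rwa [Subgroup.index_ker] at h2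
  have hK : ¬ p ∣ Nat.card ψ.ker := by
    intro h2
    obtain ⟨x, hx⟩ := exists_prime_orderOf_dvd_card' p h2
    have h3 : (x : Abelianization G) ^ e = 1 := MonoidHom.mem_ker.1 x.2
    have h4 : x ^ e = 1 := Subtype.ext h3
    have h5 := orderOf_dvd_of_pow_eq_one h4
    rw [hx] at h5
    exact hpe h5
  have hR : IsPGroup p ψ.range := by
    rintro ⟨y, x, rfl⟩
    refine ⟨2 * a, Subtype.ext ?_⟩
    show (x ^ e) ^ p ^ (2 * a) = 1
    rw [← pow_mul, mul_comm, ← he, pow_card_eq_one']
  obtain ⟨j, hj⟩ := IsPGroup.iff_card.1 hR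
  have h5 : Nat.card ψ.range = p ^ (2 * a) := by
    apply Nat.dvd_antisymm
    · rw [hj]
      have h6 : p ^ j ∣ p ^ (2 * a) * e := by
        rw [← he, ← hKR, hj]
        exact Dvd.intro_left _ rfl
      exact (Nat.Coprime.pow_left _ ((Nat.Prime.coprime_iff_not_dvd hp).2 hpe)).dvd_of_dvd_mul_right h6
    · have h6 : p ^ (2 * a) ∣ Nat.card ψ.ker * Nat.card ψ.range := by
        rw [hKR, he]
        exact Dvd.intro _ rfl
      exact (Nat.Coprime.pow_left _ ((Nat.Prime.coprime_iff_not_dvd hp).2 hK)).dvd_of_dvd_mul_left h6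
  refine ⟨ψ.range, ψ.rangeRestrict.comp Abelianization.of, ?_, h5⟩
  rw [MonoidHom.coe_comp]
  exact ψ.rangeRestrict_surjective.comp QuotientGroup.mk_surjective

section
variable {V : Type} [Fintype V] [DecidableEq V] {k : ℕ} {B : Finset (Finset V)}
variable {G : Type} [Group G] [Fintype G] [DecidableEq G] [MulAction G V]

theorem part1 (h : Aff k B) (hinv : ∀ (g : G), ∀ b ∈ B, g • b ∈ B) (hr : Reg G V)
    {L : Finset V} (hL : L ∈ B) (x0 : V) (hfree : MulAction.stabilizer G L = ⊥) {p a m : ℕ}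
    (hp : p.Prime) (hp2 : p ≠ 2) (hk : k = p ^ a * m) (hpm : ¬ p ∣ m) (ha : 1 ≤ a) :
    ((p : ℤ) - 1 - Nat.card (commutator G)) * k < Nat.card (commutator G) * (p : ℤ) ^ (2 * a) := by
  classical
  have hk2 := h.two
  let : Fintype (Abelianization G) := Fintype.ofFinite _
  obtain ⟨kk, N, d, hkk, -, hN, hA, -, hsum, hcorr⟩ := data h hinv hr hL x0 hfree
    (A := Abelianization G) Abelianization.of QuotientGroup.mk_surjective
  rw [Abelianization.ker_of] at hA hcorr
  have hpk : p ∣ k := by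
    rw [hk]
    exact (dvd_pow_self p (by omega)).mul_right _
  have key := ineq_c hp hp2 N k kk (Nat.card (commutator G)) (by omega) hkk Nat.card_pos hpk hA hN
    d hsum hcorr
  have h1 := tor_le (A := Abelianization G) hp (n := k) (a := a) (m := m) hk hpm
    (by rw [← hA]; exact Dvd.intro_left _ rfl)
  refine key.trans_le ?_
  apply mul_le_mul_of_nonneg_left _ (by positivity)
  exact_mod_cast h1

/-- the data of the projection to a group of order `p ^ (2 a)` -/
theorem data_p (h : Aff k B) (hinv : ∀ (g : G), ∀ b ∈ B, g • b ∈ B) (hr : Reg G V)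
    {L : Finset V} (hL : L ∈ B) (x0 : V) (hfree : MulAction.stabilizer G L = ⊥) {p a m : ℕ}
    (hp : p.Prime) (hk : k = p ^ a * m) (hpm : ¬ p ∣ m)
    {A : Type} [CommGroup A] [Fintype A] [DecidableEq A] (φ : G →* A)
    (hφ : Function.Surjective φ) (hA : Nat.card A = p ^ (2 * a)) :
    ∃ (N : Subgroup A) (d : A → ℤ), Nat.card N = p ^ a ∧ (∀ x, 0 ≤ d x) ∧
      ∑ y, d y = (p : ℤ) ^ a * m ∧
      ∀ x, corr d x = (p : ℤ) ^ a * m * ind (⊥ : Subgroup A) x - m * ind N x + m ^ 2 := by
  have hk2 := h.two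
  have hm : 0 < m := Nat.pos_of_ne_zero (by rintro rfl; simp at hk; omega)
  obtain ⟨kk, N, d, hkk, hdv, hN, hcA, hpos, hsum, hcorr⟩ := data h hinv hr hL x0 hfree φ hφ
  have hker : Nat.card φ.ker = m ^ 2 := by
    rw [hA, hk, mul_pow, ← pow_mul, mul_comm a 2, mul_comm] at hcA
    exact Nat.eq_of_mul_eq_mul_left (pow_pos hp.pos _) hcA
  have hcop := (Nat.Prime.coprime_iff_not_dvd hp).2 hpm
  have hNd : Nat.card N ∣ p ^ (2 * a) := by
    rw [← hA]
    exact Subgroup.card_subgroup_dvd_card _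
  have hsp : kk = m ∧ Nat.card N = p ^ a := by
    have e : kk * Nat.card N = m * p ^ a := by
      rw [hN, hk, mul_comm]
    have f1 : kk.Coprime (p ^ a) := by
      apply Nat.Coprime.pow_right
      apply Nat.Coprime.coprime_dvd_left (hdv.trans (dvd_of_eq hker))
      exact (Nat.Coprime.pow_right 2 hcop).symm
    have f2 : m.Coprime (Nat.card N) := by
      apply Nat.Coprime.coprime_dvd_right hNd
      exact Nat.Coprime.pow_right _ hcop.symm
    rcases coprime_split e f1 f2 with h1 | h1 | h1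
    · exact h1
    · omega
    · have : 0 < Nat.card N := Nat.card_pos
      omega
  refine ⟨N, d, hsp.2, hpos, ?_, ?_⟩
  · rw [hsum, hk]
    push_cast
    rfl
  · intro x
    rw [hcorr, hker, hsp.1, hk]
    push_cast
    ring

theorem part2 (h : Aff k B) (hinv : ∀ (g : G), ∀ b ∈ B, g • b ∈ B) (hr : Reg G V)
    {L : Finset V} (hL : L ∈ B) (x0 : V) (hfree : MulAction.stabilizer G L = ⊥) {p a m : ℕ}
    (hp : p.Prime) (hk : k = p ^ a * m) (hpm : ¬ p ∣ m) (ha : 1 ≤ a)
    (hpc : 2 * Nat.card (commutator G) + 1 ≤ p) :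
    m < p ^ a ∧ ∀ l : ℕ, l.Prime → l ∣ m → Odd (orderOf (l : ZMod p)) := by
  classical
  have hk2 := h.two
  have hm : 0 < m := Nat.pos_of_ne_zero (by rintro rfl; simp at hk; omega)
  have hc : 0 < Nat.card (commutator G) := Nat.card_pos
  have hp2 : p ≠ 2 := by omega
  have key := part1 h hinv hr hL x0 hfree hp hp2 hk hpm ha
  have hma : m < p ^ a := by
    have h1 : (Nat.card (commutator G) : ℤ) * k < Nat.card (commutator G) * (p : ℤ) ^ (2 * a) := by
      refine lt_of_le_of_lt ?_ key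
      apply mul_le_mul_of_nonneg_right _ (by positivity)
      have : (2 : ℤ) * Nat.card (commutator G) + 1 ≤ p := by exact_mod_cast hpc
      linarith
    have h2 : k < p ^ (2 * a) := by
      have := lt_of_mul_lt_mul_left h1 (by positivity)
      exact_mod_cast this
    rw [hk, two_mul, pow_add] at h2
    exact Nat.lt_of_mul_lt_mul_left h2
  refine ⟨hma, fun l hl hlm => ?_⟩
  have hG : Nat.card G = (p ^ a * m) ^ 2 := by rw [card_reg h hr x0, hk]
  obtain ⟨P, φ, hφ, hP⟩ := ex_quot G hp hG hpm hm (fun h1 => by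
    have := Nat.le_of_dvd hc h1
    omega)
  let : Fintype P := Fintype.ofFinite _
  obtain ⟨N, d, -, hpos, hsum, hcorr⟩ := data_p h hinv hr hL x0 hfree hp hk hpm φ hφ hP
  exact odd_c hp hp2 hl hlm hpm hm hma.le hP N d hpos hsum hcorr

theorem sq_le_four_pow (c : ℕ) : (c + 1) ^ 2 ≤ 4 ^ c := by
  have h1 : c + 1 ≤ 2 ^ c := Nat.lt_two_pow_self
  calc (c + 1) ^ 2 ≤ (2 ^ c) ^ 2 := Nat.pow_le_pow_left h1 2
    _ = 4 ^ c := by
      rw [← pow_mul, mul_comm, pow_mul]
      norm_num

theorem two_c_le (c : ℕ) (hc : 0 < c) : 2 * c + 1 ≤ 4 ^ c := by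
  have h1 := sq_le_four_pow c
  nlinarith

theorem four_sq_ge (c : ℕ) (hc : 0 < c) : (c + 1) ^ 2 ≤ 4 * c ^ 2 := by nlinarith

theorem part3 (h : Aff k B) (hinv : ∀ (g : G), ∀ b ∈ B, g • b ∈ B) (hr : Reg G V)
    {L : Finset V} (hL : L ∈ B) (x0 : V) (hfree : MulAction.stabilizer G L = ⊥) {p m : ℕ}
    (hp : p.Prime) (hk : k = p * m) (hpm : ¬ p ∣ m) (hpc : 4 * Nat.card (commutator G) ^ 2 < p) :
    IsSquare m ∧ m ≤ Nat.card (commutator G) ∧ (m = 1 ∨ p ≤ 4 ^ m) := by
  classical
  have hk2 := h.two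
  have hm : 0 < m := Nat.pos_of_ne_zero (by rintro rfl; simp at hk; omega)
  set c := Nat.card (commutator G) with hcdef
  have hc : 0 < c := Nat.card_pos
  have hsq := four_sq_ge c hc
  have hp2 : p ≠ 2 := by
    have : 1 ≤ c ^ 2 := Nat.one_le_pow _ _ hc
    omega
  have hk' : k = p ^ 1 * m := by rw [pow_one, hk]
  have key := part1 h hinv hr hL x0 hfree hp hp2 hk' hpm le_rfl
  rw [← hcdef, hk] at key
  have hp0 : (0 : ℤ) < p := by exact_mod_cast hp.pos
  have key2 : ((p : ℤ) - 1 - c) * m < c * p := by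
    have h1 : (p : ℤ) * (((p : ℤ) - 1 - c) * m) < p * (c * p) := by
      push_cast at key
      nlinarith
    exact lt_of_mul_lt_mul_left h1 hp0.le
  have hmc : m ≤ c := by
    by_contra h1
    push Not at h1
    have h2 : ((c : ℤ) + 1) ≤ m := by exact_mod_cast h1
    have h3 : ((c : ℤ) + 1) ^ 2 ≤ p := by
      have : (c + 1) ^ 2 ≤ p := by omega
      exact_mod_cast this
    have h4 : (0 : ℤ) ≤ (p : ℤ) - 1 - c := by nlinarith
    nlinarith [mul_le_mul_of_nonneg_left h2 h4]
  by_cases hm1 : m = 1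
  · exact ⟨⟨1, by rw [hm1]⟩, hmc, Or.inl hm1⟩
  have hm2 : 2 ≤ m := by omega
  have h4m : 4 * m ^ 2 < p := by
    calc 4 * m ^ 2 ≤ 4 * c ^ 2 := Nat.mul_le_mul_left _ (Nat.pow_le_pow_left hmc 2)
      _ < p := hpc
  have hG : Nat.card G = (p ^ 1 * m) ^ 2 := by rw [card_reg h hr x0, hk']
  obtain ⟨P, φ, hφ, hP⟩ := ex_quot G hp hG hpm hm (fun h1 => by
    have := Nat.le_of_dvd hc h1
    nlinarith)
  let : Fintype P := Fintype.ofFinite _
  obtain ⟨N, d, hN, hpos, hsum, hcorr⟩ := data_p h hinv hr hL x0 hfree hp hk' hpm φ hφ hP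
  obtain ⟨h5, h6⟩ := sylow_part hp hp2 hm2 h4m (by rw [hP]) N (by rw [hN, pow_one]) d (by
    rw [hsum]
    ring) (by
    intro x
    rw [hcorr]
    ring)
  exact ⟨h5, hmc, Or.inr h6⟩

end

end Pool.Agent.Helper97K9.TB
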