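import Mathlib
import Pool.Agent.Helper97K9.TB.Pl
import Pool.Agent.Helper97K9.TB.CntB
import Pool.Agent.Helper31K9.ROL.Des

set_option autoImplicit false
set_option linter.unusedSectionVars false
set_option linter.unusedVariables false

/-!
# Projective planes with a group which is regular off a line
-/

namespace Pool.Agent.Helper97K9.TB

open Finset
open scoped Pointwise
open Pool.Agent.R116.AF (Aff)
open Pool.Agent.Helper31K9.RNG
open Pool.Agent.Helper31K9.ROL (SymDes affB mem_affB)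

/-- The data: a projective plane of order `n`, a group of automorphisms which fixes a block, is
regular on the points outside the block, and some block `j` with trivial stabilizer. -/
structure TypeB (n : ℕ) (B : Fin (n ^ 2 + n + 1) → Finset (Fin (n ^ 2 + n + 1)))
    (H : Subgroup (Equiv.Perm (Fin (n ^ 2 + n + 1)))) (i j : Fin (n ^ 2 + n + 1)) : Prop where
  des : SymDes (n ^ 2 + n + 1) (n + 1) 1 B
  aut : ∀ h ∈ H, ∀ a, ∃ b, (B a).image h = B b
  fi : ∀ h ∈ H, (B i).image h = B i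
  fr : ∀ h ∈ H, (B j).image h = B j → h = 1
  reg : ∀ x y, x ∉ B i → y ∉ B i → ∃! h, h ∈ H ∧ h x = y

section
variable {n : ℕ} {B : Fin (n ^ 2 + n + 1) → Finset (Fin (n ^ 2 + n + 1))}
  {H : Subgroup (Equiv.Perm (Fin (n ^ 2 + n + 1)))} {i j : Fin (n ^ 2 + n + 1)}

theorem TypeB.mem (h : TypeB n B H i j) {g : Equiv.Perm (Fin (n ^ 2 + n + 1))} (hg : g ∈ H)
    {x : Fin (n ^ 2 + n + 1)} (hx : x ∉ B i) : g x ∉ B i := by
  intro h1
  rw [← h.fi g hg, mem_image] at h1
  obtain ⟨y, hy, e⟩ := h1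
  rw [g.injective e] at hy
  exact hx hy

/-- the action on the affine points -/
@[reducible] def TypeB.act (h : TypeB n B H i j) : MulAction H {x // x ∉ B i} where
  smul g x := ⟨(g : Equiv.Perm _) x, h.mem g.2 x.2⟩
  one_smul x := Subtype.ext rfl
  mul_smul g g' x := Subtype.ext rfl

theorem smul_sub (h : TypeB n B H i j) (g : H) {a b : Fin (n ^ 2 + n + 1)}
    (e : (B a).image (g : Equiv.Perm (Fin (n ^ 2 + n + 1))) = B b) :
    letI := h.act
    g • ((B a).subtype (fun x => x ∉ B i)) = (B b).subtype (fun x => x ∉ B i) := by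
  let := h.act
  ext ⟨x, hx⟩
  rw [mem_subtype, ← e, mem_image, mem_smul_finset]
  constructor
  · rintro ⟨⟨y, hy⟩, hy', e'⟩
    rw [mem_subtype] at hy'
    exact ⟨y, hy', congrArg Subtype.val e'⟩
  · rintro ⟨y, hy, hyx⟩
    have hyj : y ∉ B i := by
      intro h1
      apply hx
      rw [← h.fi g g.2, mem_image]
      exact ⟨y, h1, hyx⟩
    exact ⟨⟨y, hyj⟩, mem_subtype.2 hy, Subtype.ext hyx⟩

/-- all hypotheses of the affine theorems -/
theorem TypeB.all (h : TypeB n B H i j) (hn : 2 ≤ n) :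
    letI := h.act
    (∀ (g : H), ∀ b ∈ affB B i, g • b ∈ affB B i) ∧ Reg H {x // x ∉ B i} ∧
      Nonempty {x // x ∉ B i} ∧
      ∃ L ∈ affB B i, MulAction.stabilizer H L = ⊥ := by
  let := h.act
  have haff : Aff n (affB B i) := h.des.aff rfl hn i
  have hne : Nonempty {x // x ∉ B i} := by
    have : 0 < Fintype.card {x // x ∉ B i} := by
      rw [haff.card]
      positivity
    exact Fintype.card_pos_iff.1 this
  have hinv : ∀ (g : H), ∀ b ∈ affB B i, g • b ∈ affB B i := by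
    intro g c hc
    obtain ⟨a, ha, rfl⟩ := mem_affB.1 hc
    obtain ⟨b, hb⟩ := h.aut g g.2 a
    rw [smul_sub h g hb]
    refine mem_affB.2 ⟨b, ?_, rfl⟩
    rintro rfl
    apply ha
    apply h.des.inj (by omega)
    rw [← h.fi g g.2] at hb
    exact image_injective (g : Equiv.Perm _).injective hb
  have hreg : Reg H {x // x ∉ B i} := by
    refine ⟨?_, ?_⟩
    · intro x y
      obtain ⟨g, ⟨hg, e⟩, -⟩ := h.reg x y x.2 y.2
      exact ⟨⟨g, hg⟩, Subtype.ext e⟩
    · intro g x e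
      have h1 := (h.reg x x x.2 x.2).unique (y₁ := (g : Equiv.Perm _)) (y₂ := 1)
        ⟨g.2, congrArg Subtype.val e⟩ ⟨H.one_mem, rfl⟩
      exact Subtype.ext h1
  have hij : j ≠ i := by
    rintro rfl
    have hall : ∀ g ∈ H, g = 1 := fun g hg => h.fr g hg (h.fi g hg)
    have h2 : 1 < Fintype.card {x // x ∉ B j} := by
      rw [haff.card]
      nlinarith
    obtain ⟨x, y, hxy⟩ := Fintype.exists_pair_of_one_lt_card h2
    obtain ⟨g, ⟨hg, e⟩, -⟩ := h.reg x y x.2 y.2
    rw [hall g hg] at e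
    exact hxy (Subtype.ext e)
  refine ⟨hinv, hreg, hne, (B j).subtype (fun x => x ∉ B i), mem_affB.2 ⟨j, hij, rfl⟩, ?_⟩
  rw [eq_bot_iff]
  intro g hg
  rw [MulAction.mem_stabilizer_iff] at hg
  obtain ⟨b, hb⟩ := h.aut g g.2 j
  rw [smul_sub h g hb] at hg
  have hbj : b = j := by
    have h2 := haff.size _ (mem_affB.2 ⟨j, hij, rfl⟩)
    have h3 : 1 < ((B j).subtype (fun x => x ∉ B i)).card := by rw [h2]; omega
    obtain ⟨x, hx, y, hy, hxy⟩ := one_lt_card.1 h3
    have hx' := hx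
    have hy' := hy
    rw [← hg] at hx' hy'
    rw [mem_subtype] at hx hy hx' hy'
    exact h.des.uniq (fun e => hxy (Subtype.ext e)) hx' hy' hx hy
  rw [hbj] at hb
  rw [Subgroup.mem_bot]
  exact Subtype.ext (h.fr g g.2 hb)

theorem TypeB.p1 (h : TypeB n B H i j) (hn : 2 ≤ n) {p a m : ℕ} (hp : p.Prime) (hp2 : p ≠ 2)
    (hk : n = p ^ a * m) (hpm : ¬ p ∣ m) (ha : 1 ≤ a) :
    p * n < Nat.card (commutator H) * p ^ (2 * a) + (Nat.card (commutator H) + 1) * n := by
  classical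
  let := h.act
  have : Fintype H := Fintype.ofFinite H
  obtain ⟨hinv, hreg, ⟨x0⟩, L, hL, hLs⟩ := h.all hn
  have key := part1 (h.des.aff rfl hn i) hinv hreg hL x0 hLs hp hp2 hk hpm ha
  have h2 : ((p * n : ℕ) : ℤ) < ((Nat.card (commutator H) * p ^ (2 * a) +
      (Nat.card (commutator H) + 1) * n : ℕ) : ℤ) := by
    push_cast
    linarith
  exact_mod_cast h2

theorem TypeB.p2 (h : TypeB n B H i j) (hn : 2 ≤ n) {p a m : ℕ} (hp : p.Prime)
    (hk : n = p ^ a * m) (hpm : ¬ p ∣ m) (ha : 1 ≤ a) (hpc : 2 * Nat.card (commutator H) + 1 ≤ p) :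
    m < p ^ a ∧ ∀ l : ℕ, l.Prime → l ∣ m → Odd (orderOf (l : ZMod p)) := by
  classical
  let := h.act
  have : Fintype H := Fintype.ofFinite H
  obtain ⟨hinv, hreg, ⟨x0⟩, L, hL, hLs⟩ := h.all hn
  exact part2 (h.des.aff rfl hn i) hinv hreg hL x0 hLs hp hk hpm ha hpc

theorem TypeB.p3 (h : TypeB n B H i j) (hn : 2 ≤ n) {p m : ℕ} (hp : p.Prime)
    (hk : n = p * m) (hpm : ¬ p ∣ m) (hpc : 4 * Nat.card (commutator H) ^ 2 < p) :
    IsSquare m ∧ m ≤ Nat.card (commutator H) ∧ (m = 1 ∨ p ≤ 4 ^ m) := by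
  classical
  let := h.act
  have : Fintype H := Fintype.ofFinite H
  obtain ⟨hinv, hreg, ⟨x0⟩, L, hL, hLs⟩ := h.all hn
  exact part3 (h.des.aff rfl hn i) hinv hreg hL x0 hLs hp hk hpm hpc

/-- the shape of the orders which are not prime -/
theorem TypeB.shape (h : TypeB n B H i j) (hn : 2 ≤ n) (hnp : ¬ n.Prime) {C : ℕ}
    (hC : Nat.card (commutator H) ≤ C) :
    n ∈ Nat.smoothNumbers (4 ^ C + 1) ∨ ∃ s p a : ℕ, s ∈ Nat.smoothNumbers (4 ^ C + 1) ∧
      p.Prime ∧ 2 ≤ a ∧ n = s * p ^ a := by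
  have h4 : 4 ^ Nat.card (commutator H) ≤ 4 ^ C := Nat.pow_le_pow_right (by norm_num) hC
  have h2c := two_c_le (Nat.card (commutator H)) Nat.card_pos
  by_cases hbig : ∃ p, p.Prime ∧ p ∣ n ∧ 4 ^ C < p
  · right
    obtain ⟨p, hp, hpn, hpC⟩ := hbig
    obtain ⟨a, m, hpm, hk⟩ := Nat.exists_eq_pow_mul_and_not_dvd (n := n) (by omega) p hp.ne_one
    have ha : 1 ≤ a := by
      by_contra h1
      have : a = 0 := by omega
      rw [this, pow_zero, one_mul] at hk
      exact hpm (hk ▸ hpn)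
    have ha2 : 2 ≤ a := by
      by_contra h1
      have h2 : a = 1 := by omega
      rw [h2, pow_one] at hk
      have hc0 : 0 < Nat.card (commutator H) := Nat.card_pos
      obtain ⟨-, h3, h4⟩ := h.p3 hn hp hk hpm (by
        rcases Nat.lt_or_ge (Nat.card (commutator H)) 2 with h5 | h5
        · have h6 : Nat.card (commutator H) = 1 := by omega
          rw [h6] at h4 ⊢
          omega
        · have := four_pow_ge (Nat.card (commutator H)) h5
          omega)
      rcases h4 with h4 | h4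
      · rw [h4, mul_one] at hk
        exact hnp (hk ▸ hp)
      · have h5 : (4 : ℕ) ^ m ≤ 4 ^ Nat.card (commutator H) := Nat.pow_le_pow_right (by norm_num) h3
        omega
    have hm : m ≠ 0 := by
      rintro rfl
      rw [mul_zero] at hk
      omega
    refine ⟨m, p, a, ?_, hp, ha2, by rw [hk, mul_comm]⟩
    rw [Nat.mem_smoothNumbers']
    intro l hl hlm
    by_contra hcon
    have hlC : 4 ^ C < l := by omega
    have hlp : l ≠ p := by
      rintro rfl
      exact hpm hlm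
    obtain ⟨b, m', hlm', hk'⟩ := Nat.exists_eq_pow_mul_and_not_dvd (n := n) (by omega) l hl.ne_one
    have hb : 1 ≤ b := by
      by_contra h1
      have : b = 0 := by omega
      rw [this, pow_zero, one_mul] at hk'
      exact hlm' (hk' ▸ (hk ▸ hlm.mul_left _))
    have e1 := (h.p2 hn hp hk hpm ha (by omega)).1
    have e2 := (h.p2 hn hl hk' hlm' hb (by omega)).1
    have hcop : (p ^ a).Coprime (l ^ b) :=
      Nat.Coprime.pow _ _ ((Nat.coprime_primes hp hl).2 hlp.symm)
    have e3 : l ^ b ∣ m := by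
      have : l ^ b ∣ p ^ a * m := by
        rw [← hk, hk']
        exact Dvd.intro _ rfl
      exact hcop.symm.dvd_of_dvd_mul_left this
    have e4 : p ^ a ∣ m' := by
      have : p ^ a ∣ l ^ b * m' := by
        rw [← hk', hk]
        exact Dvd.intro _ rfl
      exact hcop.dvd_of_dvd_mul_left this
    have e5 := Nat.le_of_dvd (Nat.pos_of_ne_zero hm) e3
    have hm' : m' ≠ 0 := by
      rintro rfl
      rw [mul_zero] at hk'
      omega
    have e6 := Nat.le_of_dvd (Nat.pos_of_ne_zero hm') e4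
    omega
  · push Not at hbig
    left
    rw [Nat.mem_smoothNumbers']
    intro l hl hln
    have := hbig l hl hln
    omega

end

theorem count_main (C : ℕ) : ∃ K : ℝ, ∀ X : ℕ, 2 ≤ X →
    ({n : ℕ | n ≤ X ∧ 2 ≤ n ∧ ¬ n.Prime ∧ ∃ B H i j, TypeB n B H i j ∧
      Nat.card (commutator H) ≤ C}.ncard : ℝ) ≤ K * (√(X : ℝ) / Real.log X) := by
  obtain ⟨K, hK⟩ := count_all (4 ^ C + 1)
  refine ⟨K, fun X hX => hK X hX _ ?_⟩
  rintro n ⟨hnX, hn, hnp, B, H, i, j, h, hC⟩
  exact ⟨hnX, h.shape hn hnp hC⟩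

end Pool.Agent.Helper97K9.TB
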