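import Mathlib
import Pool.Agent.Helper97K9.TB.Fin
import Pool.Agent.Helper31K9.ROL.Low

set_option autoImplicit false
set_option linter.unusedSectionVars false
set_option linter.unusedVariables false

/-!
# The desarguesian planes: a commutative group which is regular off a line
-/

namespace Pool.Agent.Helper97K9.TB

open Finset
open Pool.Agent.Helper31K9.ROL (Pt inc pts mem_pts blk mem_blk symDes)

section
variable {K : Type} [Field K] [Fintype K] [DecidableEq K]

/-- the group on the points -/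
def ap (a b : K) : Pt K → Pt K
  | Sum.inl (x, y) => Sum.inl (x + a, y + a * x + b)
  | Sum.inr (some m) => Sum.inr (some (m + a))
  | Sum.inr none => Sum.inr none

/-- the group on the lines -/
def al (a b : K) : Pt K → Pt K
  | Sum.inl (m, d) => Sum.inl (m + a, d + b - (m + a) * a)
  | Sum.inr (some c) => Sum.inr (some (c + a))
  | Sum.inr none => Sum.inr none

theorem ap_zero (x : Pt K) : ap 0 0 x = x := by
  rcases x with ⟨x, y⟩ | (_ | m) <;> simp [ap]

theorem ap_mul (a b a' b' : K) (x : Pt K) :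
    ap a b (ap a' b' x) = ap (a + a') (b + b' + a * a') x := by
  rcases x with ⟨x, y⟩ | (_ | m)
  · simp only [ap]
    congr 2
    · ring
    · ring
  · simp [ap]
  · simp only [ap]
    congr 2
    ring

theorem ap_inv (a b : K) (x : Pt K) : ap (-a) (a * a - b) (ap a b x) = x := by
  rw [ap_mul]
  have e1 : -a + a = 0 := by ring
  have e2 : a * a - b + b + -a * a = 0 := by ring
  rw [e1, e2, ap_zero]

theorem ap_inv' (a b : K) (x : Pt K) : ap a b (ap (-a) (a * a - b) x) = x := by
  rw [ap_mul]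
  have e1 : a + -a = 0 := by ring
  have e2 : b + (a * a - b) + a * -a = 0 := by ring
  rw [e1, e2, ap_zero]

theorem al_inv (a b : K) (x : Pt K) : al (-a) (a * a - b) (al a b x) = x := by
  rcases x with ⟨x, y⟩ | (_ | m)
  · simp only [al]
    congr 2
    · ring
    · ring
  · simp [al]
  · simp only [al]
    congr 2
    ring

theorem inc_ap {a b : K} {x L : Pt K} (h : inc x L) : inc (ap a b x) (al a b L) := by
  rcases x with ⟨x, y⟩ | (_ | m') <;> rcases L with ⟨m, d⟩ | (_ | c) <;>
    simp only [inc, ap, al] at *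
  · rw [h]
    ring
  · rw [h]
  · rw [h]

theorem inc_ap_iff {a b : K} {x L : Pt K} : inc (ap a b x) (al a b L) ↔ inc x L := by
  constructor
  · intro h
    have := inc_ap (a := -a) (b := a * a - b) h
    rwa [ap_inv, al_inv] at this
  · exact inc_ap

variable {N : ℕ} (e : Pt K ≃ Fin N)

/-- the permutations of `Fin N` -/
def tf (a b : K) : Equiv.Perm (Fin N) where
  toFun x := e (ap a b (e.symm x))
  invFun x := e (ap (-a) (a * a - b) (e.symm x))
  left_inv x := by simp [ap_inv]
  right_inv x := by simp [ap_inv']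

theorem tf_apply (a b : K) (x : Fin N) : e.symm (tf e a b x) = ap a b (e.symm x) := by
  change e.symm (e (ap a b (e.symm x))) = _
  rw [Equiv.symm_apply_apply]

theorem tf_mul (a b a' b' : K) : tf e a b * tf e a' b' = tf e (a + a') (b + b' + a * a') := by
  ext x
  rw [Equiv.Perm.mul_apply]
  congr 1
  apply e.symm.injective
  rw [tf_apply, tf_apply, tf_apply, ap_mul]

theorem tf_zero : tf e (0 : K) 0 = 1 := by
  ext x
  congr 1
  apply e.symm.injective
  rw [tf_apply, ap_zero]
  rfl

/-- the group -/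
def gp : Subgroup (Equiv.Perm (Fin N)) where
  carrier := {g | ∃ a b : K, g = tf e a b}
  one_mem' := ⟨0, 0, (tf_zero e).symm⟩
  mul_mem' := by
    rintro _ _ ⟨a, b, rfl⟩ ⟨a', b', rfl⟩
    exact ⟨_, _, tf_mul e a b a' b'⟩
  inv_mem' := by
    rintro _ ⟨a, b, rfl⟩
    refine ⟨-a, a * a - b, ?_⟩
    rw [inv_eq_iff_mul_eq_one, tf_mul]
    have e1 : a + -a = 0 := by ring
    have e2 : b + (a * a - b) + a * -a = 0 := by ring
    rw [e1, e2, tf_zero]

theorem mem_gp {g : Equiv.Perm (Fin N)} : g ∈ gp e ↔ ∃ a b : K, g = tf e a b := Iff.rfl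

theorem image_blk (a b : K) (c : Fin N) :
    (blk e c).image (tf e a b) = blk e (e (al a b (e.symm c))) := by
  ext x
  rw [mem_image, mem_blk, Equiv.symm_apply_apply]
  constructor
  · rintro ⟨y, hy, rfl⟩
    rw [mem_blk] at hy
    rw [tf_apply]
    exact inc_ap hy
  · intro h
    obtain ⟨y, rfl⟩ := (tf e a b).surjective x
    refine ⟨y, ?_, rfl⟩
    rw [tf_apply, inc_ap_iff] at h
    exact (mem_blk e).2 h

theorem comm_gp : Nat.card (commutator (gp e)) = 1 := by
  rw [Subgroup.card_eq_one, commutator_eq_bot_iff_center_eq_top, Subgroup.eq_top_iff']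
  intro g
  rw [Subgroup.mem_center_iff]
  intro h
  obtain ⟨a, b, hg⟩ := (mem_gp e).1 g.2
  obtain ⟨a', b', hh⟩ := (mem_gp e).1 h.2
  apply Subtype.ext
  rw [Subgroup.coe_mul, Subgroup.coe_mul, hg, hh, tf_mul, tf_mul]
  congr 1
  · ring
  · ring

end

/-- every prime power is the order of a plane with a commutative group of this type -/
theorem exists_primePow {n : ℕ} (hn : IsPrimePow n) :
    ∃ (B : Fin (n ^ 2 + n + 1) → Finset (Fin (n ^ 2 + n + 1)))
      (H : Subgroup (Equiv.Perm (Fin (n ^ 2 + n + 1)))) (i j : Fin (n ^ 2 + n + 1)),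
      TypeB n B H i j ∧ Nat.card (commutator H) = 1 := by
  classical
  obtain ⟨p, r, hp, hr, rfl⟩ := (isPrimePow_nat_iff _).1 hn
  have : Fact p.Prime := ⟨hp⟩
  let K := GaloisField p r
  let : Fintype K := Fintype.ofFinite K
  have hcK : Fintype.card K = p ^ r := by
    rw [← Nat.card_eq_fintype_card]
    exact GaloisField.card p r hr.ne'
  have hcV : Fintype.card (Pt K) = (p ^ r) ^ 2 + p ^ r + 1 := by
    rw [Fintype.card_sum, Fintype.card_prod, Fintype.card_option, hcK]
    ring
  let e : Pt K ≃ Fin ((p ^ r) ^ 2 + p ^ r + 1) := Fintype.equivFinOfCardEq hcV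
  have hdes : Pool.Agent.Helper31K9.ROL.SymDes ((p ^ r) ^ 2 + p ^ r + 1) (p ^ r + 1) 1 (blk e) := by
    apply symDes e hcK
    have : 0 < p ^ r := pow_pos hp.pos r
    nlinarith
  have hpr : 1 ≤ p ^ r := Nat.one_le_pow _ _ hp.pos
  refine ⟨blk e, gp e, e (Sum.inr none), e (Sum.inl (0, 0)), ⟨hdes, ?_, ?_, ?_, ?_⟩, comm_gp e⟩
  · rintro h ⟨a, b, rfl⟩ c
    exact ⟨_, image_blk e a b c⟩
  · rintro h ⟨a, b, rfl⟩
    rw [image_blk, Equiv.symm_apply_apply]
    simp [al]
  · rintro h ⟨a, b, rfl⟩ h1
    rw [image_blk, Equiv.symm_apply_apply] at h1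
    have h2 := e.injective (hdes.inj hpr h1)
    simp only [al, Sum.inl.injEq, Prod.mk.injEq, zero_add] at h2
    obtain ⟨h3, h4⟩ := h2
    rw [h3, mul_zero, sub_zero] at h4
    rw [h3, h4, tf_zero]
  · intro x y hx hy
    have key : ∀ z, z ∉ blk e (e (Sum.inr none)) → ∃ a b : K, e.symm z = Sum.inl (a, b) := by
      intro z hz
      rw [mem_blk, Equiv.symm_apply_apply] at hz
      rcases h : e.symm z with ⟨a, b⟩ | (_ | m)
      · exact ⟨a, b, rfl⟩
      · rw [h] at hz
        exact absurd (by simp [inc]) hz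
      · rw [h] at hz
        exact absurd (by simp [inc]) hz
    obtain ⟨a, b, hx'⟩ := key x hx
    obtain ⟨c, d, hy'⟩ := key y hy
    refine ⟨tf e (c - a) (d - b - (c - a) * a), ⟨⟨_, _, rfl⟩, ?_⟩, ?_⟩
    · apply e.symm.injective
      rw [tf_apply, hx', hy']
      simp only [ap, Sum.inl.injEq, Prod.mk.injEq]
      constructor
      · ring
      · ring
    · rintro g ⟨⟨a', b', rfl⟩, hg⟩
      have h1 := congrArg e.symm hg
      rw [tf_apply, hx', hy'] at h1
      simp only [ap, Sum.inl.injEq, Prod.mk.injEq] at h1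
      obtain ⟨h2, h3⟩ := h1
      have e1 : a' = c - a := by rw [← h2]; ring
      have e2 : b' = d - b - (c - a) * a := by
        rw [← e1, ← h3]
        ring
      rw [e1, e2]

end Pool.Agent.Helper97K9.TB
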